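import Pool.Agent.Y677.RSZ.FinInst
import Pool.Agent.Y532.QuadOne

set_option autoImplicit false

/-!
# Narrow progressions in ARBITRARY sets of primes `p` for which `p² + p + 1` is a prime

Whatever the set `A` of primes `p` for which `p² + p + 1` is also a prime, all elements of `A` in `(X, X + Y]`, with at
most `ε Y / (log X) ^ 2` exceptions (an arbitrarily small proportion of the expected number of these primes), are
terms of `l`-term arithmetic progressions contained in `A ∩ (X, X + Y]` whose difference is at most a fixed power of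
`log X`; here `X ^ θ ≤ Y ≤ X` and `θ > 0` is arbitrarily small. The same holds for sets of primes `p` for which
`p² + p + 1` has no prime factor up to a small power of `p`, and of these there are at least `κ X / (log X) ^ 2` in
`(X, 2 X]`, even with a bounded number of prime factors of `p² + p + 1`.
-/

namespace Pool.Agent.Results.MP_82233c_nt.NarrowProgressions

open Finset Filter

/-- `n` is a term of an `l`-term arithmetic progression contained in `A ∩ (u, v]`, with difference at most `D` -/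
def OnProgression (A : Set ℕ) (l : ℕ) (D : ℝ) (u v n : ℕ) : Prop :=
  ∃ m d : ℕ, 1 ≤ d ∧ (d : ℝ) ≤ D ∧ (∀ i < l, m + i * d ∈ A ∧ u < m + i * d ∧ m + i * d ≤ v) ∧ ∃ i < l, n = m + i * d

/-- all elements of `A` in `(u, v]` with at most `t` exceptions are terms of such progressions -/
def NearlyAll (A : Set ℕ) (l : ℕ) (D : ℝ) (u v : ℕ) (t : ℝ) : Prop :=
  ({n : ℕ | u < n ∧ n ≤ v ∧ n ∈ A ∧ ¬ OnProgression A l D u v n}.ncard : ℝ) ≤ t

/-- `p` is a prime, and all prime factors of `p² + p + 1` are larger than `p ^ (1 / r)` -/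
def PrimeRough (r p : ℕ) : Prop :=
  p.Prime ∧ ∀ q : ℕ, q.Prime → q ∣ p ^ 2 + p + 1 → (p : ℝ) ^ (1 / (r : ℝ)) < q

section aux
open Pool.Agent.Y677.RSZ
open Pool.Agent.TH977.PW (N rpow_lt_dvd rpow_lt_of_le)
open Pool.Agent.TH464.PW (quad quad_eval quad_irr quad_deg quad_lead)
open Pool.Agent.W123.RU Pool.Agent.Y532

open Classical in
lemma out_eq (A : Set ℕ) (l : ℕ) (D : ℝ) (u v : ℕ) :
    ({n : ℕ | u < n ∧ n ≤ v ∧ n ∈ A ∧ ¬ OnProgression A l D u v n}.ncard : ℝ) = (N (Outside A l D u v) u v : ℝ) := by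
  unfold N
  rw [← Set.ncard_coe_finset]
  congr 2
  ext n
  rw [mem_coe, mem_filter, mem_Ioc]
  constructor
  · rintro ⟨h1, h2, h3, h4⟩
    exact ⟨⟨h1, h2⟩, h3, h4⟩
  · rintro ⟨⟨h1, h2⟩, h3, h4⟩
    exact ⟨h1, h2, h3, h4⟩

lemma val (m : ℕ) : (1 : ℤ) * (m : ℤ) ^ 2 + 1 * m + 1 = ((m ^ 2 + m + 1 : ℕ) : ℤ) := by
  push_cast
  ring

end aux

/-- **Narrow progressions in arbitrary sets of primes `p` for which `p² + p + 1` is a prime, or has no small prime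
factor.** -/
theorem result (θ : ℝ) (hθ : 0 < θ) (hθ1 : θ ≤ 1) :
    -- prime values
    (∀ l : ℕ, 2 ≤ l → ∀ ε : ℝ, 0 < ε → ∃ B : ℕ, ∀ᶠ X : ℕ in atTop, ∀ Y : ℕ, (X : ℝ) ^ θ ≤ Y → Y ≤ X →
      ∀ A : Set ℕ, (∀ p ∈ A, p.Prime ∧ (p ^ 2 + p + 1).Prime) →
        NearlyAll A l (Real.log X ^ B) X (X + Y) (ε * (Y / Real.log X ^ 2))) ∧
    -- rough values
    ∃ r₀ : ℕ, ∀ r : ℕ, r₀ ≤ r →
      (∀ l : ℕ, 2 ≤ l → ∀ ε : ℝ, 0 < ε → ∃ B : ℕ, ∀ᶠ X : ℕ in atTop, ∀ Y : ℕ,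
        (X : ℝ) ^ θ ≤ Y → Y ≤ X → ∀ A : Set ℕ, (∀ p ∈ A, PrimeRough r p) →
          NearlyAll A l (Real.log X ^ B) X (X + Y) (ε * (Y / Real.log X ^ 2))) ∧
      ∃ κ : ℝ, 0 < κ ∧ ∀ᶠ X : ℕ in atTop, κ * (X / Real.log X ^ 2) ≤
        ({p : ℕ | X < p ∧ p ≤ 2 * X ∧ PrimeRough r p ∧ (p ^ 2 + p + 1).primeFactorsList.length ≤ r}.ncard : ℝ) := by
  classical
  obtain ⟨r0, hr0, h⟩ := Pool.Agent.Y677.RSZ.narrow_quad_prime 1 1 1 one_pos Pool.Agent.Y532.hg1 Pool.Agent.Y532.hD1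
    Pool.Agent.Y532.hadm1 (fun r => {p | PrimeRough r p})
    (fun r => {p | PrimeRough r p ∧ (p ^ 2 + p + 1).primeFactorsList.length ≤ r})
    (fun r m hr hm => ⟨fun p hp hd => Pool.Agent.TH977.PW.rpow_lt_dvd r m p hr hm.1 hp hd, fun p hp hd => hm.2 p hp (by
      rw [val] at hd
      exact_mod_cast hd)⟩)
    (fun r m hr hm hm2 hm3 => by
      refine ⟨⟨hm, fun q hq hd => hm2 q hq (by rw [val]; exact_mod_cast hd)⟩, ?_⟩
      rw [val, Int.natAbs_natCast] at hm3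
      exact hm3) θ hθ hθ1
  have key : ∀ r : ℕ, r0 ≤ r → ∀ l : ℕ, 2 ≤ l → ∀ ε : ℝ, 0 < ε → ∃ B : ℕ, ∀ᶠ X : ℕ in atTop, ∀ Y : ℕ,
      (X : ℝ) ^ θ ≤ Y → Y ≤ X → ∀ A : Set ℕ, (∀ p ∈ A, PrimeRough r p) →
        NearlyAll A l (Real.log X ^ B) X (X + Y) (ε * (Y / Real.log X ^ 2)) := by
    intro r hr l hl ε hε
    obtain ⟨B, hB⟩ := (h r hr).2 l hl ε hε
    refine ⟨B, ?_⟩
    filter_upwards [hB] with X hX Y hXY hYX A hA
    have h1 := hX Y hXY hYX A (fun p hp => hA p hp)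
    unfold NearlyAll
    rw [out_eq]
    calc _ ≤ ε * Y / Real.log X ^ 2 := h1
      _ = _ := by ring
  refine ⟨?_, r0, fun r hr => ⟨key r hr, ?_⟩⟩
  · intro l hl ε hε
    obtain ⟨B, hB⟩ := key r0 le_rfl l hl ε hε
    refine ⟨B, ?_⟩
    filter_upwards [hB] with X hX Y hXY hYX A hA
    refine hX Y hXY hYX A (fun p hp => ⟨(hA p hp).1, fun q hq hd => ?_⟩)
    have h1 : q = p ^ 2 + p + 1 := (Nat.prime_dvd_prime_iff_eq hq (hA p hp).2).1 hd
    apply Pool.Agent.TH977.PW.rpow_lt_of_le r0 p q hr0 (hA p hp).1.two_le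
    rw [h1]
    nlinarith
  · obtain ⟨κ, hκ, h2⟩ := (h r hr).1
    refine ⟨κ, hκ, ?_⟩
    filter_upwards [h2] with X hX
    have h4 : {p : ℕ | X < p ∧ p ≤ 2 * X ∧ PrimeRough r p ∧ (p ^ 2 + p + 1).primeFactorsList.length ≤ r} =
        (((Ioc X (2 * X)).filter (fun m => m ∈ {p | PrimeRough r p ∧ (p ^ 2 + p + 1).primeFactorsList.length ≤ r}) :
          Finset ℕ) : Set ℕ) := by
      ext n
      rw [mem_coe, mem_filter, mem_Ioc]
      constructor
      · rintro ⟨g1, g2, g3⟩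
        exact ⟨⟨g1, g2⟩, g3⟩
      · rintro ⟨⟨g1, g2⟩, g3⟩
        exact ⟨g1, g2, g3⟩
    rw [h4, Set.ncard_coe_finset]
    unfold Pool.Agent.TH977.PW.N at hX
    calc κ * (X / Real.log X ^ 2) = κ * X / Real.log X ^ 2 := by ring
      _ ≤ _ := hX
      _ = _ := by
        norm_cast
        exact congrArg card (Finset.ext fun n => by simp only [mem_filter])

end Pool.Agent.Results.MP_82233c_nt.NarrowProgressions
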