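import Pool.Agent.TH977.PW.Inst
import Pool.Agent.Y532.QuadOne

set_option autoImplicit false

/-!
# Regular points of ARBITRARY sets of primes `p` for which `p² + p + 1` is a prime

Let `A` be an ARBITRARY set of primes `p` for which `p² + p + 1` is also a prime (for example the set of all of them),
or only has no prime factor up to a small power of `p`. In every short interval `(X, X + Y]`, `X ^ θ ≤ Y ≤ X / 2`, all
but `ε Y / (log X) ^ 2` of the elements of `A` are regular points of `A`: the numbers of elements of `A` in ALL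
intervals around the point of length between `(log X) ^ 2 / c` and `Y` have the order of magnitude of the conjecture of
Bateman and Stemmler, and `A` has constant density up to `δ` on both sides of the point at all but `B (ε, δ)` dyadic
scales.
-/

namespace Pool.Agent.Results.MP_82233c_nt.RegularPoints

open Finset Filter

open Classical in
/-- the number of the elements of `A` in `(u, v]` -/
noncomputable def N (A : Set ℕ) (u v : ℕ) : ℕ := ((Ioc u v).filter (fun m => m ∈ A)).card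

/-- All intervals `(p - s, p + t]` with `s, t ≤ Y` of length at least `(log X) ^ 2 / c` contain the right order of
elements of `A`. -/
def RightOrder (A : Set ℕ) (c : ℝ) (X Y p : ℕ) : Prop :=
  ∀ s t : ℕ, s ≤ Y → t ≤ Y → Real.log X ^ 2 ≤ c * (s + t) →
    c * (s + t) / Real.log X ^ 2 ≤ N A (p - s) (p + t) ∧
      (N A (p - s) (p + t) : ℝ) ≤ (s + t) / (c * Real.log X ^ 2)

/-- Up to `δ`, `A` has a constant density on both sides of `p` up to the distance `2 ^ j`. -/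
def ConstantDensity (A : Set ℕ) (c δ : ℝ) (X p j : ℕ) : Prop :=
  ∃ lam : ℝ, c ≤ lam ∧ lam ≤ 1 / c ∧ ∀ s t : ℕ, s ≤ 2 ^ j → t ≤ 2 ^ j →
    |(N A (p - s) (p + t) : ℝ) - lam * (s + t) / Real.log X ^ 2| ≤ δ * 2 ^ j / Real.log X ^ 2

open Classical in
/-- the number of the scales `(log X) ^ 2 ≤ 2 ^ j ≤ Y` without this property -/
noncomputable def badScales (A : Set ℕ) (c δ : ℝ) (X Y p : ℕ) : ℕ :=
  ((range (Nat.log 2 Y + 1)).filter (fun j => Real.log X ^ 2 ≤ (2 : ℝ) ^ j ∧ ¬ ConstantDensity A c δ X p j)).card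

/-- The elements of `A` that are not regular points of `A`. -/
def Irregular (A : Set ℕ) (c δ : ℝ) (B X Y : ℕ) : Set ℕ :=
  {p | p ∈ A ∧ ¬ (RightOrder A c X Y p ∧ badScales A c δ X Y p ≤ B)}

/-- `p` is a prime, and all prime factors of `p² + p + 1` are larger than `p ^ (1 / r)` -/
def PrimeRough (r p : ℕ) : Prop :=
  p.Prime ∧ ∀ q : ℕ, q.Prime → q ∣ p ^ 2 + p + 1 → (p : ℝ) ^ (1 / (r : ℝ)) < q

lemma N_eq : N = Pool.Agent.TH977.PW.N := by
  funext A u v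
  unfold N Pool.Agent.TH977.PW.N
  rfl

lemma RightOrder_iff (A : Set ℕ) (c : ℝ) (X Y m : ℕ) :
    RightOrder A c X Y m ↔ Pool.Agent.TH977.PW.RightOrder A 2 c X Y m := by
  unfold RightOrder Pool.Agent.TH977.PW.RightOrder
  simp only [N_eq]

lemma ConstantDensity_iff (A : Set ℕ) (c δ : ℝ) (X m j : ℕ) :
    ConstantDensity A c δ X m j ↔ Pool.Agent.TH977.PW.ConstantDensity A 2 c δ X m j := by
  unfold ConstantDensity Pool.Agent.TH977.PW.ConstantDensity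
  simp only [N_eq]

open Classical in
lemma badScales_eq (A : Set ℕ) (c δ : ℝ) (X Y m : ℕ) :
    badScales A c δ X Y m = Pool.Agent.TH977.PW.badScales A 2 c δ X Y m := by
  unfold badScales Pool.Agent.TH977.PW.badScales
  refine congrArg card (Finset.ext fun j => ?_)
  simp only [mem_filter, ConstantDensity_iff]

lemma Irregular_eq (A : Set ℕ) (c δ : ℝ) (B X Y : ℕ) :
    Irregular A c δ B X Y = Pool.Agent.TH977.PW.Irregular A 2 c δ B X Y := by
  unfold Irregular Pool.Agent.TH977.PW.Irregular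
  simp only [RightOrder_iff, badScales_eq]

lemma val (m : ℕ) : (1 : ℤ) * (m : ℤ) ^ 2 + 1 * m + 1 = ((m ^ 2 + m + 1 : ℕ) : ℤ) := by
  push_cast
  ring

/-- a set of primes `p` for which `p² + p + 1` is a prime is a set of rough values -/
lemma prime_rough (r : ℕ) (hr : 2 ≤ r) (p : ℕ) (hp : p.Prime) (hq : (p ^ 2 + p + 1).Prime) : PrimeRough r p := by
  refine ⟨hp, fun q hq' hd => ?_⟩
  have h1 : q = p ^ 2 + p + 1 := (Nat.prime_dvd_prime_iff_eq hq' hq).1 hd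
  apply Pool.Agent.TH977.PW.rpow_lt_of_le r p q hr hp.two_le
  rw [h1]
  nlinarith

/-- **Regular points.** -/
theorem result (θ : ℝ) (hθ : 0 < θ) (hθ1 : θ ≤ 1) :
    -- prime values
    (∀ ε : ℝ, 0 < ε → ∃ c : ℝ, 0 < c ∧ ∀ δ : ℝ, 0 < δ → ∃ B : ℕ, ∀ᶠ X : ℕ in atTop, ∀ Y : ℕ,
      (X : ℝ) ^ θ ≤ Y → 2 * Y ≤ X → ∀ A : Set ℕ, (∀ p ∈ A, p.Prime ∧ (p ^ 2 + p + 1).Prime) →
        (N (Irregular A c δ B X Y) X (X + Y) : ℝ) ≤ ε * (Y / Real.log X ^ 2)) ∧
    -- rough values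
    ∃ r₀ : ℕ, ∀ r : ℕ, r₀ ≤ r →
      (∀ ε : ℝ, 0 < ε → ∃ c : ℝ, 0 < c ∧ ∀ δ : ℝ, 0 < δ → ∃ B : ℕ, ∀ᶠ X : ℕ in atTop, ∀ Y : ℕ,
        (X : ℝ) ^ θ ≤ Y → 2 * Y ≤ X → ∀ A : Set ℕ, (∀ p ∈ A, PrimeRough r p) →
          (N (Irregular A c δ B X Y) X (X + Y) : ℝ) ≤ ε * (Y / Real.log X ^ 2)) ∧
      ∃ κ : ℝ, 0 < κ ∧ ∀ᶠ X : ℕ in atTop, κ * (X / Real.log X ^ 2) ≤
        (N {p | PrimeRough r p ∧ (p ^ 2 + p + 1).primeFactorsList.length ≤ r} X (2 * X) : ℝ) := by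
  obtain ⟨r0, hr0, h1⟩ := Pool.Agent.TH977.PW.final_quad_prime 1 1 1 one_pos Pool.Agent.Y532.hg1 Pool.Agent.Y532.hD1
    Pool.Agent.Y532.hadm1 (fun r => {p | PrimeRough r p})
    (fun r => {p | PrimeRough r p ∧ (p ^ 2 + p + 1).primeFactorsList.length ≤ r})
    (fun r m hr hm => ⟨fun p hp hd => Pool.Agent.TH977.PW.rpow_lt_dvd r m p hr hm.1 hp hd, fun p hp hd => hm.2 p hp (by
      rw [val] at hd
      exact_mod_cast hd)⟩)
    (fun r m hr hm hm2 hm3 => by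
      refine ⟨⟨hm, fun q hq hd => hm2 q hq (by rw [val]; exact_mod_cast hd)⟩, ?_⟩
      rw [val, Int.natAbs_natCast] at hm3
      exact hm3) θ hθ hθ1
  have key : ∀ r : ℕ, r0 ≤ r → ∀ ε : ℝ, 0 < ε → ∃ c : ℝ, 0 < c ∧ ∀ δ : ℝ, 0 < δ → ∃ B : ℕ,
      ∀ᶠ X : ℕ in atTop, ∀ Y : ℕ,
      (X : ℝ) ^ θ ≤ Y → 2 * Y ≤ X → ∀ A : Set ℕ, (∀ p ∈ A, PrimeRough r p) →
        (N (Irregular A c δ B X Y) X (X + Y) : ℝ) ≤ ε * (Y / Real.log X ^ 2) := by
    intro r hr ε hε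
    obtain ⟨c, hc, h2⟩ := (h1 r hr).2 ε hε
    refine ⟨c, hc, fun δ hδ => ?_⟩
    obtain ⟨B, h3⟩ := h2 δ hδ
    refine ⟨B, ?_⟩
    filter_upwards [h3] with X hX Y hXY hYX A hA
    have h4 := hX Y hXY hYX A (fun p hp => hA p hp)
    rw [N_eq, Irregular_eq]
    calc _ ≤ ε * Y / Real.log X ^ 2 := h4
      _ = _ := by ring
  refine ⟨?_, r0, fun r hr => ⟨key r hr, ?_⟩⟩
  · intro ε hε
    obtain ⟨c, hc, h2⟩ := key r0 le_rfl ε hε
    refine ⟨c, hc, fun δ hδ => ?_⟩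
    obtain ⟨B, h3⟩ := h2 δ hδ
    refine ⟨B, ?_⟩
    filter_upwards [h3] with X hX Y hXY hYX A hA
    exact hX Y hXY hYX A (fun p hp => prime_rough r0 hr0 p (hA p hp).1 (hA p hp).2)
  · obtain ⟨κ, hκ, h2⟩ := (h1 r hr).1
    refine ⟨κ, hκ, ?_⟩
    filter_upwards [h2] with X hX
    rw [N_eq]
    calc κ * (X / Real.log X ^ 2) = κ * X / Real.log X ^ 2 := by ring
      _ ≤ _ := hX

end Pool.Agent.Results.MP_82233c_nt.RegularPoints
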