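import Pool.Agent.Q315.RD

/-!
# The numbers `m` and `m ^ 2 + m + 1` for `m` with restricted digits

Let `g ≥ 2` be a base and `K` a large number of digits. For every `i < K` let `A i` be an arbitrary non-empty set of digits. Nothing
is assumed about these sets except that they are not too small on average: the number `|A 0| ⋯ |A (K - 1)|` of the integers
`t < g ^ K` whose `i`-th digit belongs to `A i` for all `i < K` is at least `exp (- c K) g ^ K`, where `c > 0` does not depend on the
base (`Rich`; for example, a digit is missing everywhere and the base is large, or the digits at an arbitrary set of at most `c' K`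
places are prescribed). Let `N ≤ g ^ (E K)` be arbitrary, so that the interval `[N, N + g ^ K)` may be very short.

The number of the integers `m = N + t` in this interval with these `t` for which `m` and `m ^ 2 + m + 1` have at most `r` prime
factors, all larger than `g ^ (K / r)`, is at least `κ V |A 0| ⋯ |A (K - 1)|`, unless there is an obvious obstruction (no digit `d` in
`A 0` such that `N + d` and `(N + d) ^ 2 + (N + d) + 1` are prime to `g`); here `V` is the product of `1 - ν (p) / p` over the primes
`p ≤ g ^ K`, where `ν (p)` is the number of the zeros of `X (X ^ 2 + X + 1)` modulo `p` (in the notation of the question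
`2 + χ (p)`), the expected order. The number of the `m = N + t` for which `m` and `m ^ 2 + m + 1` are primes is at most
`C V |A 0| ⋯ |A (K - 1)|`. The constants are independent of the sets `A i` and of `N`.

Proof. The theorem on almost prime values of polynomials at integers with restricted digits, uniform in the polynomial, of the
starting library (`Pool.Agent.Y816.PD.uni_fun`).
-/

set_option autoImplicit false

namespace Pool.Agent.Results.MP_82233c_nt.RestrictedDigits

open Filter Finset Polynomial
open Pool.Agent.Q315.RD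

lemma adm (p : ℕ) (hp : p.Prime) :
    ∃ n : ℕ, ∀ i, ¬ (p : ℤ) ∣ ((![X, X ^ 2 + X + 1] : Fin 2 → ℤ[X]) i).eval (n : ℤ) := by
  have key : ∃ n : ℕ, ¬ (p : ℤ) ∣ (n : ℤ) * ((n : ℤ) ^ 2 + n + 1) := by
    rcases Nat.lt_or_ge p 5 with h5 | h5
    · have h2 := hp.two_le
      have h3 : p = 2 ∨ p = 3 := by
        by_contra hcon
        have : p = 4 := by omega
        subst this
        revert hp
        norm_num
      rcases h3 with rfl | rfl
      · exact ⟨1, by norm_num⟩
      · exact ⟨2, by norm_num⟩
    · have hmon : (X * (X ^ 2 + X + 1) : ℤ[X]).Monic := by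
        apply Monic.mul monic_X
        monicity!
      obtain ⟨n, hn⟩ := Pool.Agent.Y816.PD.adm_deg hp (X * (X ^ 2 + X + 1) : ℤ[X])
        (by rw [hmon.leadingCoeff]
            intro h
            have := Int.eq_one_of_dvd_one (by omega) h
            omega)
        (lt_of_le_of_lt (show (X * (X ^ 2 + X + 1) : ℤ[X]).natDegree ≤ 3 by compute_degree) (by omega))
      exact ⟨n, by simpa using hn⟩
  obtain ⟨n, hn⟩ := key
  refine ⟨n, fun i hi => hn ?_⟩
  fin_cases i
  · exact Dvd.dvd.mul_right (by simpa using hi) _
  · exact Dvd.dvd.mul_left (by simpa using hi) _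

/-- **`m` and `m ^ 2 + m + 1` almost prime, for `m` with restricted digits, in all short intervals.** -/
theorem result (E : ℕ) :
    ∃ c : ℝ, 0 < c ∧ ∃ r₀ : ℕ, 2 ≤ r₀ ∧ ∀ r : ℕ, r₀ ≤ r → ∀ g : ℕ, 2 ≤ g → ∃ κ C : ℝ, 0 < κ ∧ 0 < C ∧
      ∀ᶠ K : ℕ in atTop, ∀ N : ℕ, N ≤ g ^ (E * K) → ∀ A : ℕ → Finset ℕ, Rich c g K A →
        ((∃ d ∈ A 0, (N + d).Coprime g ∧ ((N + d) ^ 2 + (N + d) + 1).Coprime g) →
          κ * rootDensity (fun n => (n : ℤ) * (n ^ 2 + n + 1)) (g ^ K) * choices K A ≤
            count g K A fun t => AlmostPrime (g ^ K) r (N + t) ∧ AlmostPrime (g ^ K) r ((N + t) ^ 2 + (N + t) + 1)) ∧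
        (count g K A (fun t => (N + t).Prime ∧ ((N + t) ^ 2 + (N + t) + 1).Prime) : ℝ) ≤
          C * rootDensity (fun n => (n : ℤ) * (n ^ 2 + n + 1)) (g ^ K) * choices K A := by
  obtain ⟨c, hc, r₀, hr₀, h⟩ := shifted ![X, X ^ 2 + X + 1] ![fun m => m, fun m => m ^ 2 + m + 1] 0
    (fun i n _ => by fin_cases i <;> simp)
    (fun i n _ => by
      fin_cases i
      · simp
      · simp only [Fin.mk_one, Matrix.cons_val_one, Matrix.cons_val_fin_one]
        nlinarith)
    adm E
  refine ⟨c, hc, r₀, hr₀, fun r hr g hg => ?_⟩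
  obtain ⟨κ, C, hκ, hC, h1⟩ := h r hr g hg
  refine ⟨κ, C, hκ, hC, ?_⟩
  filter_upwards [h1] with K hK
  intro N hN A hA
  have h2 := hK N (Nat.zero_le N) hN A hA
  simpa only [Fin.forall_fin_two, Fin.prod_univ_two, Matrix.cons_val_zero, Matrix.cons_val_one, Matrix.cons_val_fin_one,
    eval_add, eval_pow, eval_X, eval_one] using h2

end Pool.Agent.Results.MP_82233c_nt.RestrictedDigits
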